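import Pool.Agent.Lib.H13.HopfTrie
import Pool.Agent.Lib.H56S.Unp
import Pool.Agent.Lib.H87.HopfKC.Cert.Def

/-!
# The Gauss–Bonnet integrand is given by the table `e4`
-/

open Finset

namespace HopfKC

/-- Trie of the part `QP`. -/
noncomputable def tQP : BT := sumT perm3 fun ρ => sumT perm3 fun π => sumT perm3 fun τ =>
  triT (ρ.2 * (π.2 * τ.2), entT 0 (π.1 0) (ρ.1 0) (τ.1 0), entT 1 (π.1 1) (ρ.1 1) (τ.1 1),
    entT 2 (π.1 2) (ρ.1 2) (τ.1 2))

/-- Trie of the part `-2 bX`. -/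
noncomputable def tX : BT := sumT perm3 fun ρ => sumT perm3 fun π => sumT fin3 fun i =>
  sumT fin3 fun j => triT (-2 * (ρ.2 * π.2), entL i (ρ.1 0) (π.1 0), entT (ρ.1 1) (π.1 1) i j,
    entM j (ρ.1 2) (π.1 2))

/-- Trie of the part `bE3`. -/
noncomputable def tE3 : BT := sumT fin3 fun i => sumT fin3 fun j => sumT fin3 fun k =>
  sumT fin3 fun l => sumT [(1, entA i k, entT i j k l, entC j l), (1, entA i k, entM l i j, entM j k l),
    (1, entC j l, entL i k l, entL k i j), (1, entG i l, entG k j, entT i j k l),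
    (1, entL i k l, entM l i j, entG k j), (1, entG i l, entM j k l, entL k i j)] fun t => triT t

theorem okT : ∀ i j k l, okL (entT i j k l) = true := by decide
theorem okA : ∀ i k, okL (entA i k) = true := by decide
theorem okC : ∀ i k, okL (entC i k) = true := by decide
theorem okG : ∀ i k, okL (entG i k) = true := by decide
theorem okLL : ∀ i k l, okL (entL i k l) = true := by decide
theorem okM : ∀ i k l, okL (entM i k l) = true := by decide

theorem map_sum_congr {α : Type} (l : List α) (f g : α → ℝ) (h : ∀ x, f x = g x) :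
    (l.map f).sum = (l.map g).sum := by
  rw [show f = g from funext h]

theorem ev_tQP (v : ℕ → ℝ) : tQP.ev v 0 0 = tevs v eQP := by
  unfold tQP eQP
  rw [ev_sumT, tevs_flatMap]
  refine map_sum_congr _ _ _ fun ρ => ?_
  rw [ev_sumT, tevs_flatMap]
  refine map_sum_congr _ _ _ fun π => ?_
  rw [ev_sumT, tevs_map]
  refine map_sum_congr _ _ _ fun τ => ?_
  exact ev_triT v _ (okT _ _ _ _) (okT _ _ _ _) (okT _ _ _ _)

theorem ev_tX (v : ℕ → ℝ) : tX.ev v 0 0 = tevs v eX := by
  unfold tX eX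
  rw [ev_sumT, tevs_flatMap]
  refine map_sum_congr _ _ _ fun ρ => ?_
  rw [ev_sumT, tevs_flatMap]
  refine map_sum_congr _ _ _ fun π => ?_
  rw [ev_sumT, tevs_flatMap]
  refine map_sum_congr _ _ _ fun i => ?_
  rw [ev_sumT, tevs_map]
  refine map_sum_congr _ _ _ fun j => ?_
  exact ev_triT v _ (okLL _ _ _) (okT _ _ _ _) (okM _ _ _)

theorem ev_tE3 (v : ℕ → ℝ) : tE3.ev v 0 0 = tevs v eE3 := by
  unfold tE3 eE3
  rw [ev_sumT, tevs_flatMap]
  refine map_sum_congr _ _ _ fun i => ?_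
  rw [ev_sumT, tevs_flatMap]
  refine map_sum_congr _ _ _ fun j => ?_
  rw [ev_sumT, tevs_flatMap]
  refine map_sum_congr _ _ _ fun k => ?_
  rw [ev_sumT, tevs_flatMap]
  refine map_sum_congr _ _ _ fun l => ?_
  rw [ev_sumT]
  unfold tevs
  simp only [List.map_cons, List.map_nil]
  rw [ev_triT v _ (okA _ _) (okT _ _ _ _) (okC _ _), ev_triT v _ (okA _ _) (okM _ _ _) (okM _ _ _),
    ev_triT v _ (okC _ _) (okLL _ _ _) (okLL _ _ _), ev_triT v _ (okG _ _) (okG _ _) (okT _ _ _ _),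
    ev_triT v _ (okLL _ _ _) (okM _ _ _) (okG _ _), ev_triT v _ (okG _ _) (okM _ _ _) (okLL _ _ _)]

theorem I76_eq : I76 = List.range 76 := by decide

theorem chkE : ((tQP.add (tX.add tE3)).add
    (tabU I76 (Tr.get e4T) (-2) 16 256 10)).isZero = true := by
  decide +kernel

/-- The Gauss–Bonnet integrand as a cubic form in the 76 coordinates. -/
theorem gb_e4 {c : ℝ} {R : T6'} (h : Lin c R) : HopfSix.gaussBonnet R / 96 =
    ∑ k ∈ range 76, ∑ i ∈ range 76, ∑ j ∈ range 76,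
      (e4 k i j : ℝ) * (cv c R k * cv c R i * cv c R j) := by
  have h1 := trie_soundU (cv c R) I76_eq chkE
  rw [BT.ev_add, BT.ev_add, ev_tQP, ev_tX, ev_tE3] at h1
  have h2 := gb_eAll h
  rw [eAll, tevs_append, tevs_append] at h2
  have h3 : ∑ k ∈ range 76, ∑ i ∈ range 76, ∑ j ∈ range 76,
      (e4 k i j : ℝ) * (cv c R k * cv c R i * cv c R j) =
      ∑ k ∈ range 76, ∑ i ∈ range 76, ∑ j ∈ range 76,
        (lkf 16 256 j 10 (Tr.get e4T (Nat.add (Nat.mul 76 k) i)) : ℝ) *
          (cv c R k * cv c R i * cv c R j) := rfl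
  rw [h3]
  push_cast at h1
  linarith

end HopfKC
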