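import Pool.Agent.Lib.H87.HopfKC.Ent

/-!
# The Gauss–Bonnet integrand in dimension six as a list of products of linear forms
-/

open Equiv Finset

namespace HopfKC

/-- An integer multiple of a product of three sparse linear forms. -/
abbrev Tri : Type := ℤ × List (ℕ × ℤ) × List (ℕ × ℤ) × List (ℕ × ℤ)

/-- Its value. -/
def tev (v : ℕ → ℝ) (t : Tri) : ℝ := (t.1 : ℝ) * (lev v t.2.1 * lev v t.2.2.1 * lev v t.2.2.2)

/-- Sum of the values. -/
def tevs (v : ℕ → ℝ) (l : List Tri) : ℝ := (l.map (tev v)).sum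

theorem tevs_append (v : ℕ → ℝ) (l m : List Tri) : tevs v (l ++ m) = tevs v l + tevs v m := by
  simp [tevs]

theorem tevs_flatMap {α : Type*} (v : ℕ → ℝ) (l : List α) (f : α → List Tri) :
    tevs v (l.flatMap f) = (l.map fun x => tevs v (f x)).sum := by
  induction l with
  | nil => rfl
  | cons a l ih => rw [List.flatMap_cons, tevs_append, ih, List.map_cons, List.sum_cons]

theorem tevs_map {α : Type*} (v : ℕ → ℝ) (l : List α) (f : α → Tri) :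
    tevs v (l.map f) = (l.map fun x => tev v (f x)).sum := by
  simp [tevs, Function.comp_def]

/-- The elements of `Fin 3`. -/
def fin3 : List (Fin 3) := [0, 1, 2]

theorem sum_fin3 (f : Fin 3 → ℝ) : (fin3.map f).sum = ∑ i, f i := by
  simp [fin3, Fin.sum_univ_three, add_assoc]

/-- The permutations of `Fin 3` with their signs. -/
def perm3 : List ((Fin 3 → Fin 3) × ℤ) := [(![0, 1, 2], 1), (![1, 0, 2], -1), (![2, 1, 0], -1),
  (![0, 2, 1], -1), (![1, 2, 0], 1), (![2, 0, 1], 1)]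

theorem sum_perm3L (F : (Fin 3 → Fin 3) → ℝ) : (perm3.map fun p => (p.2 : ℝ) * F p.1).sum =
    ∑ σ : Perm (Fin 3), ((Perm.sign σ : ℤ) : ℝ) * F σ := by
  rw [sum_perm3]
  have s1 : Perm.sign (swap (0 : Fin 3) 1) = -1 := by decide
  have s2 : Perm.sign (swap (0 : Fin 3) 2) = -1 := by decide
  have s3 : Perm.sign (swap (1 : Fin 3) 2) = -1 := by decide
  have f0 : ((1 : Perm (Fin 3)) : Fin 3 → Fin 3) = ![0, 1, 2] := by decide
  have f1 : ((swap 0 1 : Perm (Fin 3)) : Fin 3 → Fin 3) = ![1, 0, 2] := by decide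
  have f2 : ((swap 0 2 : Perm (Fin 3)) : Fin 3 → Fin 3) = ![2, 1, 0] := by decide
  have f3 : ((swap 1 2 : Perm (Fin 3)) : Fin 3 → Fin 3) = ![0, 2, 1] := by decide
  have f4 : ((swap 0 1 * swap 1 2 : Perm (Fin 3)) : Fin 3 → Fin 3) = ![1, 2, 0] := by decide
  have f5 : ((swap 1 2 * swap 0 1 : Perm (Fin 3)) : Fin 3 → Fin 3) = ![2, 0, 1] := by decide
  rw [f0, f1, f2, f3, f4, f5, Perm.sign_mul, Perm.sign_mul, s1, s2, s3, Perm.sign_one]
  simp [perm3]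
  ring

/-- The part `QP`. -/
def eQP : List Tri := perm3.flatMap fun ρ => perm3.flatMap fun π => perm3.map fun τ =>
  (ρ.2 * (π.2 * τ.2), entT 0 (π.1 0) (ρ.1 0) (τ.1 0), entT 1 (π.1 1) (ρ.1 1) (τ.1 1),
    entT 2 (π.1 2) (ρ.1 2) (τ.1 2))

/-- The part `-2 bX`. -/
def eX : List Tri := perm3.flatMap fun ρ => perm3.flatMap fun π => fin3.flatMap fun i =>
  fin3.map fun j => (-2 * (ρ.2 * π.2), entL i (ρ.1 0) (π.1 0), entT (ρ.1 1) (π.1 1) i j,
    entM j (ρ.1 2) (π.1 2))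

/-- The part `bE3`. -/
def eE3 : List Tri := fin3.flatMap fun i => fin3.flatMap fun j => fin3.flatMap fun k =>
  fin3.flatMap fun l => [(1, entA i k, entT i j k l, entC j l), (1, entA i k, entM l i j, entM j k l),
    (1, entC j l, entL i k l, entL k i j), (1, entG i l, entG k j, entT i j k l),
    (1, entL i k l, entM l i j, entG k j), (1, entG i l, entM j k l, entL k i j)]

section

variable {c : ℝ} {R : T6'}

theorem sum_perm3L' (F : (Fin 3 → Fin 3) → ℝ) (a : ℝ) :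
    (perm3.map fun p => (p.2 : ℝ) * (a * F p.1)).sum =
    a * ∑ σ : Perm (Fin 3), ((Perm.sign σ : ℤ) : ℝ) * F σ := by
  rw [sum_perm3L (fun σ => a * F σ), Finset.mul_sum]
  exact Finset.sum_congr rfl fun σ _ => by ring

theorem tevs_eQP (hA : HopfSix.IsAlgCurv R) :
    tevs (cv c R) eQP = 8 * H91.Mat3.QP (fun i k j l => bT R i k j l) := by
  unfold eQP H91.Mat3.QP
  rw [tevs_flatMap]
  have h1 : ∀ ρ : (Fin 3 → Fin 3) × ℤ, tevs (cv c R) (perm3.flatMap fun π => perm3.map fun τ =>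
      ((ρ.2 * (π.2 * τ.2), entT 0 (π.1 0) (ρ.1 0) (τ.1 0), entT 1 (π.1 1) (ρ.1 1) (τ.1 1),
        entT 2 (π.1 2) (ρ.1 2) (τ.1 2)) : Tri)) =
      (ρ.2 : ℝ) * (8 * ∑ π : Perm (Fin 3), ∑ τ : Perm (Fin 3),
        ((Perm.sign π : ℤ) : ℝ) * ((Perm.sign τ : ℤ) : ℝ) * (bT R 0 (π 0) (ρ.1 0) (τ 0) *
          bT R 1 (π 1) (ρ.1 1) (τ 1) * bT R 2 (π 2) (ρ.1 2) (τ 2))) := by
    intro ρ
    rw [tevs_flatMap]
    have h2 : ∀ π : (Fin 3 → Fin 3) × ℤ, tevs (cv c R) (perm3.map fun τ =>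
      ((ρ.2 * (π.2 * τ.2), entT 0 (π.1 0) (ρ.1 0) (τ.1 0), entT 1 (π.1 1) (ρ.1 1) (τ.1 1),
        entT 2 (π.1 2) (ρ.1 2) (τ.1 2)) : Tri)) =
      (π.2 : ℝ) * ((8 * ρ.2) * ∑ τ : Perm (Fin 3),
        ((Perm.sign τ : ℤ) : ℝ) * (bT R 0 (π.1 0) (ρ.1 0) (τ 0) *
          bT R 1 (π.1 1) (ρ.1 1) (τ 1) * bT R 2 (π.1 2) (ρ.1 2) (τ 2))) := by
      intro π
      rw [tevs_map]
      have h3 := sum_perm3L' (fun τ => bT R 0 (π.1 0) (ρ.1 0) (τ 0) *
          bT R 1 (π.1 1) (ρ.1 1) (τ 1) * bT R 2 (π.1 2) (ρ.1 2) (τ 2)) ((π.2 : ℝ) * (8 * ρ.2))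
      rw [← mul_assoc, ← h3]
      congr 1
      refine List.map_congr_left fun τ _ => ?_
      simp only [tev, lev_entT hA]
      push_cast
      ring
    simp only [h2]
    rw [sum_perm3L' (fun π => ∑ τ : Perm (Fin 3), ((Perm.sign τ : ℤ) : ℝ) *
      (bT R 0 (π 0) (ρ.1 0) (τ 0) * bT R 1 (π 1) (ρ.1 1) (τ 1) * bT R 2 (π 2) (ρ.1 2) (τ 2)))]
    have h4 : ∀ π : Perm (Fin 3), ((Perm.sign π : ℤ) : ℝ) * ∑ τ : Perm (Fin 3),
      ((Perm.sign τ : ℤ) : ℝ) * (bT R 0 (π 0) (ρ.1 0) (τ 0) * bT R 1 (π 1) (ρ.1 1) (τ 1) *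
        bT R 2 (π 2) (ρ.1 2) (τ 2)) = ∑ τ : Perm (Fin 3),
        ((Perm.sign π : ℤ) : ℝ) * ((Perm.sign τ : ℤ) : ℝ) * (bT R 0 (π 0) (ρ.1 0) (τ 0) *
          bT R 1 (π 1) (ρ.1 1) (τ 1) * bT R 2 (π 2) (ρ.1 2) (τ 2)) := by
      intro π
      rw [Finset.mul_sum]
      exact Finset.sum_congr rfl fun τ _ => by ring
    simp only [h4]
    ring
  simp only [h1]
  rw [sum_perm3L' (fun ρ => ∑ π : Perm (Fin 3), ∑ τ : Perm (Fin 3),
        ((Perm.sign π : ℤ) : ℝ) * ((Perm.sign τ : ℤ) : ℝ) * (bT R 0 (π 0) (ρ 0) (τ 0) *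
          bT R 1 (π 1) (ρ 1) (τ 1) * bT R 2 (π 2) (ρ 2) (τ 2)))]
  congr 1
  refine Finset.sum_congr rfl fun ρ _ => ?_
  rw [Finset.mul_sum]
  refine Finset.sum_congr rfl fun π _ => ?_
  rw [Finset.mul_sum]
  refine Finset.sum_congr rfl fun τ _ => ?_
  rw [Fin.prod_univ_three]
  ring

theorem tevs_eX (h : Lin c R) : tevs (cv c R) eX = 8 * (-2 * bX R) := by
  have hA := h.alg
  unfold eX bX
  rw [tevs_flatMap]
  have h1 : ∀ ρ : (Fin 3 → Fin 3) × ℤ, tevs (cv c R) (perm3.flatMap fun π => fin3.flatMap fun i =>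
      fin3.map fun j => ((-2 * (ρ.2 * π.2), entL i (ρ.1 0) (π.1 0), entT (ρ.1 1) (π.1 1) i j,
        entM j (ρ.1 2) (π.1 2)) : Tri)) = (ρ.2 : ℝ) * (-16 * ∑ π : Perm (Fin 3),
          ((Perm.sign π : ℤ) : ℝ) * ∑ i, ∑ j, (bL R i (ρ.1 0) (π 0) * bT R (ρ.1 1) (π 1) i j *
            bM R j (ρ.1 2) (π 2))) := by
    intro ρ
    rw [tevs_flatMap]
    have h2 : ∀ π : (Fin 3 → Fin 3) × ℤ, tevs (cv c R) (fin3.flatMap fun i =>
      fin3.map fun j => ((-2 * (ρ.2 * π.2), entL i (ρ.1 0) (π.1 0), entT (ρ.1 1) (π.1 1) i j,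
        entM j (ρ.1 2) (π.1 2)) : Tri)) = (π.2 : ℝ) * ((-16 * ρ.2) * ∑ i, ∑ j,
          (bL R i (ρ.1 0) (π.1 0) * bT R (ρ.1 1) (π.1 1) i j * bM R j (ρ.1 2) (π.1 2))) := by
      intro π
      rw [tevs_flatMap, sum_fin3, Finset.mul_sum, Finset.mul_sum]
      refine Finset.sum_congr rfl fun i _ => ?_
      rw [tevs_map, sum_fin3, Finset.mul_sum, Finset.mul_sum]
      refine Finset.sum_congr rfl fun j _ => ?_
      simp only [tev, lev_entT hA, lev_entL h, lev_entM h]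
      push_cast
      ring
    simp only [h2]
    rw [sum_perm3L' (fun π => ∑ i, ∑ j, (bL R i (ρ.1 0) (π 0) * bT R (ρ.1 1) (π 1) i j *
      bM R j (ρ.1 2) (π 2)))]
    ring
  simp only [h1]
  rw [sum_perm3L' (fun ρ => ∑ π : Perm (Fin 3), ((Perm.sign π : ℤ) : ℝ) * ∑ i, ∑ j,
    (bL R i (ρ 0) (π 0) * bT R (ρ 1) (π 1) i j * bM R j (ρ 2) (π 2)))]
  have e : ∀ x : ℝ, 8 * (-2 * x) = -16 * x := fun x => by ring
  rw [e]
  congr 1
  refine Finset.sum_congr rfl fun ρ _ => ?_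
  rw [Finset.mul_sum]
  refine Finset.sum_congr rfl fun π _ => ?_
  rw [Finset.mul_sum, Finset.mul_sum]
  refine Finset.sum_congr rfl fun i _ => ?_
  rw [Finset.mul_sum, Finset.mul_sum]
  refine Finset.sum_congr rfl fun j _ => ?_
  ring

theorem tevs_eE3 (h : Lin c R) : tevs (cv c R) eE3 = 8 * bE3 R := by
  have hA := h.alg
  unfold eE3 bE3
  rw [tevs_flatMap, sum_fin3, Finset.mul_sum]
  refine Finset.sum_congr rfl fun i _ => ?_
  rw [tevs_flatMap, sum_fin3, Finset.mul_sum]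
  refine Finset.sum_congr rfl fun j _ => ?_
  rw [tevs_flatMap, sum_fin3, Finset.mul_sum]
  refine Finset.sum_congr rfl fun k _ => ?_
  rw [tevs_flatMap, sum_fin3, Finset.mul_sum]
  refine Finset.sum_congr rfl fun l _ => ?_
  simp only [tevs, List.map_cons, List.map_nil, List.sum_cons, List.sum_nil, tev, lev_entA h,
    lev_entT hA, lev_entC h, lev_entM h, lev_entL h, lev_entG hA]
  push_cast
  ring

/-- The list of products of linear forms which represents `gaussBonnet / 48`. -/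
def eAll : List Tri := eQP ++ eX ++ eE3

theorem gb_eAll (h : Lin c R) : tevs (cv c R) eAll = HopfSix.gaussBonnet R / 48 := by
  rw [eAll, tevs_append, tevs_append, tevs_eQP h.alg, tevs_eX h, tevs_eE3 h, gb_blocks h.alg]
  ring

end

end HopfKC
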