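import Pool.Agent.Lib.H13.HopfE
import Pool.Agent.Lib.H87.HopfKC.Cert.Ker

/-!
# Cubic polynomials as tries, and comparison with a packed table by the kernel
-/

open Finset

namespace HopfKC

/-- A trie keyed by the binary digits of a number (lowest digit first), with a list of pairs
(index, coefficient) at each node. -/
inductive BT | e | n (x : List (ℕ × ℤ)) (a b : BT)

/-- Insertion with merging of coefficients. -/
noncomputable def insL (p : ℕ × ℤ) (l : List (ℕ × ℤ)) : List (ℕ × ℤ) :=
  List.rec [p] (fun q t ih => bif Nat.beq p.1 q.1 then (q.1, Int.add p.2 q.2) :: t else q :: ih) l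

/-- Merging of lists. -/
noncomputable def mrgL (x y : List (ℕ × ℤ)) : List (ℕ × ℤ) := List.rec y (fun p _ s => insL p s) x

/-- Sum of two tries. -/
noncomputable def BT.add (s : BT) : BT → BT :=
  BT.rec (motive := fun _ => BT → BT) (fun t => t) (fun x a b iha ihb t =>
    BT.rec (motive := fun _ => BT) (.n x a b) (fun y c d _ _ => .n (mrgL x y) (iha c) (ihb d)) t) s

/-- Sum of a family of tries. -/
noncomputable def sumT {α : Type} (l : List α) (f : α → BT) : BT :=
  List.rec .e (fun a _ s => (f a).add s) l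

/-- A trie with a single entry. -/
noncomputable def sing (x : List (ℕ × ℤ)) (fuel : ℕ) : ℕ → BT :=
  Nat.rec (motive := fun _ => ℕ → BT) (fun _ => .n x .e .e) (fun _ ih key =>
    bif Nat.beq (Nat.mod key 2) 0 then .n [] (ih (Nat.div key 2)) .e
    else .n [] .e (ih (Nat.div key 2))) fuel

/-- All coefficients vanish. -/
noncomputable def allz (x : List (ℕ × ℤ)) : Bool :=
  List.rec true (fun p _ r => bif isz p.2 then r else false) x

/-- The trie represents zero. -/
noncomputable def BT.isZero (t : BT) : Bool :=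
  BT.rec true (fun x _ _ ia ib => bif allz x then (bif ia then ib else false) else false) t

/-- A sorted monomial. -/
noncomputable def mono3 (c : ℤ) (k i j : ℕ) : BT := sing [(j, c)] 13 (Nat.add (Nat.mul 76 k) i)

/-- A monomial. -/
noncomputable def monoT (c : ℤ) (a b d : ℕ) : BT :=
  bif Nat.ble a b then
    (bif Nat.ble b d then mono3 c a b d else bif Nat.ble a d then mono3 c a d b else mono3 c d a b)
  else (bif Nat.ble a d then mono3 c b a d else bif Nat.ble b d then mono3 c b d a else mono3 c d b a)

/-- The trie of a product of linear forms. -/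
noncomputable def triT (t : Tri) : BT :=
  sumT t.2.1 fun x => sumT t.2.2.1 fun y => sumT t.2.2.2 fun z =>
    monoT (Int.mul (Int.mul t.1 x.2) (Int.mul y.2 z.2)) x.1 y.1 z.1

section

variable (v : ℕ → ℝ)

/-- Value of a list. -/
def evl (x : List (ℕ × ℤ)) : ℝ := lev v x

theorem lev_insL (p : ℕ × ℤ) (l : List (ℕ × ℤ)) :
    lev v (insL p l) = (p.2 : ℝ) * v p.1 + lev v l := by
  induction l with
  | nil =>
    show lev v [p] = _
    rw [lev_cons]
  | cons q t ih =>
    have e : insL p (q :: t) =
        bif Nat.beq p.1 q.1 then (q.1, Int.add p.2 q.2) :: t else q :: insL p t := rfl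
    rw [e]
    cases hb : Nat.beq p.1 q.1 with
    | true =>
      have h1 : p.1 = q.1 := Nat.eq_of_beq_eq_true hb
      rw [cond_true, lev_cons, lev_cons]
      have h2 : ((Int.add p.2 q.2 : ℤ) : ℝ) = (p.2 : ℝ) + q.2 := by
        rw [← Int.cast_add]; rfl
      simp only [h2, h1]
      ring
    | false =>
      rw [cond_false, lev_cons, ih, lev_cons]
      ring

theorem lev_mrgL (x y : List (ℕ × ℤ)) : lev v (mrgL x y) = lev v x + lev v y := by
  induction x with
  | nil =>
    show lev v y = _
    rw [lev_nil, zero_add]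
  | cons p t ih =>
    have e : mrgL (p :: t) y = insL p (mrgL t y) := rfl
    rw [e, lev_insL, ih, lev_cons]
    ring

/-- The monomial with a given key. -/
def mk2 (key : ℕ) : ℝ := v (key / 76) * v (key % 76)

/-- Value of a trie at depth `d`, with lower digits `base`. -/
noncomputable def BT.ev (v : ℕ → ℝ) : BT → ℕ → ℕ → ℝ
  | .e, _, _ => 0
  | .n x a b, d, base => lev v x * mk2 v base + a.ev v (d + 1) base + b.ev v (d + 1) (base + 2 ^ d)

theorem BT.ev_e (d base : ℕ) : BT.ev v .e d base = 0 := rfl
theorem BT.ev_n (x : List (ℕ × ℤ)) (a b : BT) (d base : ℕ) : BT.ev v (.n x a b) d base =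
    lev v x * mk2 v base + a.ev v (d + 1) base + b.ev v (d + 1) (base + 2 ^ d) := rfl

theorem BT.ev_add (s : BT) : ∀ (t : BT) (d base : ℕ),
    (s.add t).ev v d base = s.ev v d base + t.ev v d base := by
  induction s with
  | e =>
    intro t d base
    show t.ev v d base = _
    rw [BT.ev_e, zero_add]
  | n x a b iha ihb =>
    intro t d base
    cases t with
    | e =>
      show (BT.n x a b).ev v d base = _
      rw [BT.ev_e, add_zero]
    | n y c e =>
      have h : (BT.n x a b).add (BT.n y c e) = .n (mrgL x y) (a.add c) (b.add e) := rfl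
      rw [h, BT.ev_n, iha, ihb, lev_mrgL, BT.ev_n, BT.ev_n]
      ring

theorem ev_sumT {α : Type} (l : List α) (f : α → BT) (d base : ℕ) :
    (sumT l f).ev v d base = (l.map fun x => (f x).ev v d base).sum := by
  induction l with
  | nil => rfl
  | cons a l ih =>
    have e : sumT (a :: l) f = (f a).add (sumT l f) := rfl
    rw [e, BT.ev_add, ih, List.map_cons, List.sum_cons]

theorem ev_sing (x : List (ℕ × ℤ)) (fuel : ℕ) : ∀ (key d base : ℕ), key < 2 ^ fuel →
    (sing x fuel key).ev v d base = lev v x * mk2 v (base + 2 ^ d * key) := by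
  induction fuel with
  | zero =>
    intro key d base hk
    have h0 : key = 0 := by simpa using hk
    subst h0
    show (BT.n x .e .e).ev v d base = _
    rw [BT.ev_n, BT.ev_e, BT.ev_e, mul_zero, add_zero, add_zero, add_zero]
  | succ n ih =>
    intro key d base hk
    have e : sing x (n + 1) key = bif Nat.beq (Nat.mod key 2) 0 then
      .n [] (sing x n (Nat.div key 2)) .e else .n [] .e (sing x n (Nat.div key 2)) := rfl
    have hd : key / 2 < 2 ^ n := by
      rw [Nat.div_lt_iff_lt_mul (by norm_num)]
      rw [pow_succ] at hk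
      exact hk
    have hdm : 2 * (key / 2) + key % 2 = key := Nat.div_add_mod key 2
    rw [e]
    cases hb : Nat.beq (Nat.mod key 2) 0 with
    | true =>
      have h1 : key % 2 = 0 := Nat.eq_of_beq_eq_true hb
      rw [cond_true, BT.ev_n, BT.ev_e, lev_nil, zero_mul, zero_add, add_zero]
      have := ih (key / 2) (d + 1) base hd
      rw [show Nat.div key 2 = key / 2 from rfl, this]
      congr 2
      rw [pow_succ]
      have : key = 2 * (key / 2) := by omega
      conv_rhs => rw [this]
      ring
    | false =>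
      have h1 : key % 2 ≠ 0 := by
        intro h
        have : Nat.beq (Nat.mod key 2) 0 = true := by
          show Nat.beq (key % 2) 0 = true
          rw [h]; rfl
        rw [this] at hb
        exact absurd hb (by decide)
      have h2 : key % 2 = 1 := by omega
      rw [cond_false, BT.ev_n, BT.ev_e, lev_nil, zero_mul, zero_add, zero_add]
      have := ih (key / 2) (d + 1) (base + 2 ^ d) hd
      rw [show Nat.div key 2 = key / 2 from rfl, this]
      congr 2
      rw [pow_succ]
      have : key = 2 * (key / 2) + 1 := by omega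
      conv_rhs => rw [this]
      ring

theorem lev_allz {x : List (ℕ × ℤ)} (h : allz x = true) : lev v x = 0 := by
  induction x with
  | nil => rfl
  | cons p t ih =>
    have e : allz (p :: t) = bif isz p.2 then allz t else false := rfl
    rw [e] at h
    cases hz : isz p.2 with
    | false => rw [hz, cond_false] at h; exact absurd h (by decide)
    | true =>
      rw [hz, cond_true] at h
      have h0 : p.2 = 0 := by
        cases hp : p.2 with
        | ofNat n =>
          rw [hp] at hz
          have h1 : n = 0 := Nat.eq_of_beq_eq_true hz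
          rw [h1]; rfl
        | negSucc n =>
          rw [hp] at hz
          exact absurd hz (by simp [isz])
      rw [lev_cons, ih h, h0]
      simp

theorem BT.ev_isZero {t : BT} (h : t.isZero = true) : ∀ d base, t.ev v d base = 0 := by
  induction t with
  | e => intro d base; rfl
  | n x a b iha ihb =>
    have e : (BT.n x a b).isZero = bif allz x then (bif a.isZero then b.isZero else false)
      else false := rfl
    rw [e] at h
    cases hx : allz x with
    | false => rw [hx, cond_false] at h; exact absurd h (by decide)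
    | true =>
      rw [hx, cond_true] at h
      cases ha : a.isZero with
      | false => rw [ha, cond_false] at h; exact absurd h (by decide)
      | true =>
        rw [ha, cond_true] at h
        intro d base
        rw [BT.ev_n, lev_allz v hx, iha ha, ihb h]
        simp

theorem ev_mono3 (c : ℤ) {k i j : ℕ} (hk : k < 76) (hi : i < 76) :
    (mono3 c k i j).ev v 0 0 = (c : ℝ) * (v k * v i * v j) := by
  unfold mono3
  have h1 : Nat.add (Nat.mul 76 k) i = 76 * k + i := rfl
  have h2 : 76 * k + i < 2 ^ 13 := by norm_num; omega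
  rw [h1, ev_sing v _ _ _ _ _ h2, pow_zero, one_mul, zero_add, lev_cons, lev_nil, add_zero]
  unfold mk2
  have h3 : (76 * k + i) / 76 = k := by omega
  have h4 : (76 * k + i) % 76 = i := by omega
  rw [h3, h4]
  ring

theorem ev_monoT (c : ℤ) {a b d : ℕ} (ha : a < 76) (hb : b < 76) (hd : d < 76) :
    (monoT c a b d).ev v 0 0 = (c : ℝ) * (v a * v b * v d) := by
  unfold monoT
  cases Nat.ble a b <;> cases Nat.ble b d <;> cases Nat.ble a d <;>
    simp only [cond_true, cond_false] <;> rw [ev_mono3 v _ (by assumption) (by assumption)] <;> ring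

/-- All indices are less than 76. -/
def okL (l : List (ℕ × ℤ)) : Bool := l.all fun e => decide (e.1 < 76)

theorem okL_mem {l : List (ℕ × ℤ)} (h : okL l = true) : ∀ e ∈ l, e.1 < 76 := by
  intro e he
  have := List.all_eq_true.1 h e he
  simpa using this

theorem sum_map_mul (l : List (ℕ × ℤ)) (f : ℕ × ℤ → ℝ) (a : ℝ)
    (h : ∀ e ∈ l, f e = (e.2 : ℝ) * v e.1 * a) : (l.map f).sum = lev v l * a := by
  induction l with
  | nil => simp [lev]
  | cons e l ih =>
    rw [List.map_cons, List.sum_cons, lev_cons, ih fun e he => h e (List.mem_cons_of_mem _ he),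
      h e List.mem_cons_self]
    ring

theorem ev_triT (t : Tri) (h1 : okL t.2.1 = true) (h2 : okL t.2.2.1 = true)
    (h3 : okL t.2.2.2 = true) : (triT t).ev v 0 0 = tev v t := by
  unfold triT tev
  rw [ev_sumT]
  have e : (t.1 : ℝ) * (lev v t.2.1 * lev v t.2.2.1 * lev v t.2.2.2) =
    lev v t.2.1 * (lev v t.2.2.1 * (lev v t.2.2.2 * (t.1 : ℝ))) := by ring
  rw [e]
  refine sum_map_mul v _ _ _ fun x hx => ?_
  rw [ev_sumT]
  have e2 : (x.2 : ℝ) * v x.1 * (lev v t.2.2.1 * (lev v t.2.2.2 * (t.1 : ℝ))) =
    lev v t.2.2.1 * (lev v t.2.2.2 * ((t.1 : ℝ) * ((x.2 : ℝ) * v x.1))) := by ring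
  rw [e2]
  refine sum_map_mul v _ _ _ fun y hy => ?_
  rw [ev_sumT]
  have e3 : (y.2 : ℝ) * v y.1 * (lev v t.2.2.2 * ((t.1 : ℝ) * ((x.2 : ℝ) * v x.1))) =
    lev v t.2.2.2 * ((t.1 : ℝ) * ((x.2 : ℝ) * v x.1) * ((y.2 : ℝ) * v y.1)) := by ring
  rw [e3]
  refine sum_map_mul v _ _ _ fun z hz => ?_
  rw [ev_monoT v _ (okL_mem h1 x hx) (okL_mem h2 y hy) (okL_mem h3 z hz)]
  have e4 : ((Int.mul (Int.mul t.1 x.2) (Int.mul y.2 z.2) : ℤ) : ℝ) =
      (t.1 : ℝ) * x.2 * ((y.2 : ℝ) * z.2) := by
    rw [← Int.cast_mul, ← Int.cast_mul, ← Int.cast_mul]; rfl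
  rw [e4]
  ring

end

/-! ### Tries of tables -/

/-- Remove the zero coefficients. -/
noncomputable def flt (l : List (ℕ × ℤ)) : List (ℕ × ℤ) :=
  List.rec [] (fun p _ r => bif isz p.2 then r else p :: r) l

/-- Row of a table. -/
noncomputable def rowL (J : List ℕ) (m : ℤ) (w o fuel r : ℕ) : List (ℕ × ℤ) :=
  List.rec [] (fun j _ s => (j, Int.mul m (lkf w o j fuel r)) :: s) J

/-- Trie of a table of packed rows. -/
noncomputable def tabT (J : List ℕ) (rowf : ℕ → ℕ) (m : ℤ) (w o fuel : ℕ) : BT :=
  sumT J fun k => sumT J fun i => bif Nat.beq (rowf (Nat.add (Nat.mul 76 k) i)) 0 then .e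
    else sing (flt (rowL J m w o fuel (rowf (Nat.add (Nat.mul 76 k) i)))) 13
      (Nat.add (Nat.mul 76 k) i)

theorem lev_flt (v : ℕ → ℝ) (l : List (ℕ × ℤ)) : lev v (flt l) = lev v l := by
  induction l with
  | nil => rfl
  | cons p t ih =>
    have e : flt (p :: t) = bif isz p.2 then flt t else p :: flt t := rfl
    rw [e]
    cases hz : isz p.2 with
    | false => rw [cond_false, lev_cons, ih, lev_cons]
    | true =>
      have h0 : lev v [p] = 0 := lev_allz v (x := [p]) (by
        show (bif isz p.2 then true else false) = true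
        rw [hz]; rfl)
      rw [lev_cons, lev_nil, add_zero] at h0
      rw [cond_true, ih, lev_cons, h0, zero_add]

theorem lev_rowL (v : ℕ → ℝ) (m : ℤ) (w o fuel r : ℕ) (J : List ℕ) :
    lev v (rowL J m w o fuel r) = (m : ℝ) * (J.map fun j => (lkf w o j fuel r : ℝ) * v j).sum := by
  induction J with
  | nil =>
    show (0 : ℝ) = _
    simp
  | cons j J ih =>
    have e : rowL (j :: J) m w o fuel r = (j, Int.mul m (lkf w o j fuel r)) :: rowL J m w o fuel r :=
      rfl
    have e2 : ((Int.mul m (lkf w o j fuel r) : ℤ) : ℝ) = (m : ℝ) * (lkf w o j fuel r : ℝ) := by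
      rw [← Int.cast_mul]; rfl
    rw [e, lev_cons, ih, List.map_cons, List.sum_cons]
    simp only [e2]
    ring

theorem lkf_zero (w o j fuel : ℕ) : lkf w o j fuel 0 = 0 := by
  cases fuel with
  | zero => rfl
  | succ n => rfl

theorem sum_J {J : List ℕ} (hJ : J = List.range 76) (f : ℕ → ℝ) :
    (J.map f).sum = ∑ j ∈ range 76, f j := by
  have h : ∀ n : ℕ, ((List.range n).map f).sum = ∑ j ∈ range n, f j := by
    intro n
    induction n with
    | zero => simp
    | succ n ih => rw [List.range_succ, List.map_append, List.sum_append, ih,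
        Finset.sum_range_succ]; simp
  rw [hJ, h]

theorem ev_tabT (v : ℕ → ℝ) {J : List ℕ} (hJ : J = List.range 76) (rowf : ℕ → ℕ) (m : ℤ)
    (w o fuel : ℕ) : (tabT J rowf m w o fuel).ev v 0 0 = (m : ℝ) *
      ∑ k ∈ range 76, ∑ i ∈ range 76, ∑ j ∈ range 76,
        (lkf w o j fuel (rowf (Nat.add (Nat.mul 76 k) i)) : ℝ) * (v k * v i * v j) := by
  unfold tabT
  rw [ev_sumT, sum_J hJ, Finset.mul_sum]
  refine Finset.sum_congr rfl fun k hk => ?_
  rw [ev_sumT, sum_J hJ, Finset.mul_sum]
  refine Finset.sum_congr rfl fun i hi => ?_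
  have hk' : k < 76 := Finset.mem_range.1 hk
  have hi' : i < 76 := Finset.mem_range.1 hi
  have h1 : Nat.add (Nat.mul 76 k) i = 76 * k + i := rfl
  have h2 : 76 * k + i < 2 ^ 13 := by norm_num; omega
  have h3 : (76 * k + i) / 76 = k := by omega
  have h4 : (76 * k + i) % 76 = i := by omega
  rw [h1]
  cases hb : Nat.beq (rowf (76 * k + i)) 0 with
  | true =>
    have h5 : rowf (76 * k + i) = 0 := Nat.eq_of_beq_eq_true hb
    rw [cond_true, BT.ev_e, h5]
    simp [lkf_zero]
  | false =>
    rw [cond_false, ev_sing v _ _ _ _ _ h2, pow_zero, one_mul, zero_add, lev_flt, lev_rowL,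
      sum_J hJ]
    unfold mk2
    rw [h3, h4, mul_assoc, Finset.sum_mul]
    congr 1
    refine Finset.sum_congr rfl fun j _ => ?_
    ring

/-- Comparison of a trie and a table. -/
theorem trie_sound (v : ℕ → ℝ) {J : List ℕ} (hJ : J = List.range 76) {rowf : ℕ → ℕ} {m : ℤ}
    {w o fuel : ℕ} {t : BT} (h : (t.add (tabT J rowf m w o fuel)).isZero = true) :
    t.ev v 0 0 = - ((m : ℝ) * ∑ k ∈ range 76, ∑ i ∈ range 76, ∑ j ∈ range 76,
        (lkf w o j fuel (rowf (Nat.add (Nat.mul 76 k) i)) : ℝ) * (v k * v i * v j)) := by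
  have h1 := BT.ev_isZero v h 0 0
  rw [BT.ev_add, ev_tabT v hJ] at h1
  linarith

end HopfKC
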